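import Mathlib
import Pool.Agent.N451.Move.Game

set_option autoImplicit false

/-!
The move number `M(q)` of the Maker-Breaker clique game on the infinite complete graph:
`M(q) ≤ C * q ^ 4 * 2 ^ (2 q / 3)`.
-/

namespace Pool.Agent.Results.MP_278060_co.FastMaker

open Pool.Agent.Helper679.CliqueGame Pool.Agent.N451.Move Filter
open scoped ENNReal

lemma makerWins_anti {q q' m : ℕ} (h : q ≤ q') (hm : MakerWinsWithin q' m) :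
    MakerWinsWithin q m := by
  obtain ⟨μ, hμ⟩ := hm
  exact ⟨μ, fun β hc => hμ β (hc.mono h)⟩

lemma moveNumber_le {q m : ℕ} (h : MakerWinsWithin q m) : moveNumber q ≤ m :=
  iInf_le (fun m : {m : ℕ // MakerWinsWithin q m} => ((m : ℕ) : ℕ∞)) ⟨m, h⟩

theorem main : ∃ C : ℝ, 0 < C ∧ ∀ q : ℕ, 1 ≤ q → ∃ m : ℕ,
    (m : ℝ) ≤ C * (q : ℝ) ^ 4 * 2 ^ ((2 / 3 : ℝ) * q) ∧ MakerWinsWithin q m := by
  obtain ⟨t₀, ht₀⟩ := fast
  refine ⟨2 ^ 17 + 2 ^ 15 * (t₀ : ℝ) ^ 4 * 4 ^ t₀, by positivity, fun q hq => ?_⟩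
  set t := max t₀ ((q + 2) / 3) with ht
  have h1 := ht₀ t (le_max_left _ _)
  have h2 : q ≤ 3 * t := by
    have := le_max_right t₀ ((q + 2) / 3)
    omega
  refine ⟨_, ?_, makerWins_anti h2 h1⟩
  have hq1 : (1 : ℝ) ≤ q := by exact_mod_cast hq
  have hq4 : (1 : ℝ) ≤ (q : ℝ) ^ 4 := one_le_pow₀ hq1
  have hp : (1 : ℝ) ≤ 2 ^ ((2 / 3 : ℝ) * q) := Real.one_le_rpow (by norm_num) (by positivity)
  have hA : (1 : ℝ) ≤ (q : ℝ) ^ 4 * 2 ^ ((2 / 3 : ℝ) * q) := by nlinarith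
  have hT0 : (0 : ℝ) ≤ 2 ^ 15 * (t₀ : ℝ) ^ 4 * 4 ^ t₀ := by positivity
  have hcast : ((2 ^ 15 * t ^ 4 * 4 ^ t : ℕ) : ℝ) = 2 ^ 15 * (t : ℝ) ^ 4 * 4 ^ t := by
    push_cast; ring
  rw [hcast]
  rcases le_total ((q + 2) / 3) t₀ with h | h
  · have ht' : t = t₀ := max_eq_left h
    rw [ht', mul_assoc (2 ^ 17 + 2 ^ 15 * (t₀ : ℝ) ^ 4 * 4 ^ t₀)]
    nlinarith
  · have ht' : t = (q + 2) / 3 := max_eq_right h
    have htq : t ≤ q := by omega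
    have ht3 : 3 * t ≤ q + 2 := by omega
    have e1 : (t : ℝ) ^ 4 ≤ (q : ℝ) ^ 4 :=
      pow_le_pow_left₀ (by positivity) (by exact_mod_cast htq) 4
    have e2 : (4 : ℝ) ^ t ≤ 4 * 2 ^ ((2 / 3 : ℝ) * q) := by
      have h3 : (4 : ℝ) ^ t = 2 ^ (2 * (t : ℝ)) := by
        rw [Real.rpow_mul (by norm_num), Real.rpow_natCast]
        norm_num
      have h4 : (4 : ℝ) * 2 ^ ((2 / 3 : ℝ) * q) = 2 ^ (2 + (2 / 3 : ℝ) * q) := by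
        rw [Real.rpow_add (by norm_num)]
        norm_num
      rw [h3, h4]
      apply Real.rpow_le_rpow_of_exponent_le (by norm_num)
      have h5 : (3 : ℝ) * t ≤ q + 2 := by exact_mod_cast ht3
      linarith
    calc 2 ^ 15 * (t : ℝ) ^ 4 * 4 ^ t
        ≤ 2 ^ 15 * (q : ℝ) ^ 4 * (4 * 2 ^ ((2 / 3 : ℝ) * q)) := by gcongr
      _ = 2 ^ 17 * ((q : ℝ) ^ 4 * 2 ^ ((2 / 3 : ℝ) * q)) := by ring
      _ ≤ (2 ^ 17 + 2 ^ 15 * (t₀ : ℝ) ^ 4 * 4 ^ t₀) * ((q : ℝ) ^ 4 * 2 ^ ((2 / 3 : ℝ) * q)) := by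
        gcongr
        linarith
      _ = (2 ^ 17 + 2 ^ 15 * (t₀ : ℝ) ^ 4 * 4 ^ t₀) * (q : ℝ) ^ 4 *
          2 ^ ((2 / 3 : ℝ) * q) := by ring

lemma ev_small (C : ℝ) : ∀ᶠ q : ℕ in atTop,
    C ^ 2 * (q : ℝ) ^ 8 < 2 ^ ((q : ℝ) / 6) := by
  have hl2 : 0 < Real.log 2 := Real.log_pos (by norm_num)
  have ht : Tendsto (fun t : ℕ => (t : ℝ)) atTop atTop := tendsto_natCast_atTop_atTop
  have h3 := (isLittleO_pow_exp_pos_mul_atTop (k := 8)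
    (show (0 : ℝ) < Real.log 2 / 6 by positivity)).comp_tendsto ht
  have h4 := h3.def (show (0 : ℝ) < 1 / (C ^ 2 + 1) by positivity)
  filter_upwards [h4] with q h4
  simp only [Function.comp_apply, Real.norm_eq_abs] at h4
  rw [abs_of_nonneg (by positivity), abs_of_pos (Real.exp_pos _)] at h4
  have h5 : Real.exp (Real.log 2 / 6 * (q : ℝ)) = 2 ^ ((q : ℝ) / 6) := by
    rw [Real.rpow_def_of_pos (by norm_num)]
    congr 1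
    ring
  rw [h5, one_div, inv_mul_eq_div, le_div_iff₀ (by positivity)] at h4
  have h6 : (0 : ℝ) < 2 ^ ((q : ℝ) / 6) := by positivity
  rcases Nat.eq_zero_or_pos q with rfl | hq
  · simp
  · have h7 : (0 : ℝ) < (q : ℝ) ^ 8 := by positivity
    nlinarith

/-- **Main theorem.** The move number is finite, at most `C * q ^ 4 * 2 ^ (2 q / 3)`, and for all
large `q` it is smaller than the geometric mean of `2 ^ (q / 2)` and `2 ^ q`. -/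
theorem result :
    (∃ C : ℝ, 0 < C ∧ ∀ q : ℕ, 1 ≤ q → ∃ M : ℕ, moveNumber q = M ∧ MakerWinsWithin q M ∧
      (M : ℝ) ≤ C * (q : ℝ) ^ 4 * 2 ^ ((2 / 3 : ℝ) * q)) ∧
    (∀ᶠ q : ℕ in atTop, ∃ M : ℕ, moveNumber q = M ∧
      (M : ℝ) ^ 2 < 2 ^ ((q : ℝ) / 2) * 2 ^ (q : ℝ)) := by
  obtain ⟨C, hC, h⟩ := main
  have h' : ∀ q : ℕ, 1 ≤ q → ∃ M : ℕ, moveNumber q = M ∧ MakerWinsWithin q M ∧
      (M : ℝ) ≤ C * (q : ℝ) ^ 4 * 2 ^ ((2 / 3 : ℝ) * q) := by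
    intro q hq
    obtain ⟨m, hm, hw⟩ := h q hq
    have hex : ∃ M : ℕ, MakerWinsWithin q M := ⟨m, hw⟩
    classical
    refine ⟨Nat.find hex, ?_, Nat.find_spec hex, ?_⟩
    · refine le_antisymm (moveNumber_le (Nat.find_spec hex)) (le_iInf fun n => ?_)
      exact_mod_cast Nat.find_min' hex n.2
    · have h1 : (Nat.find hex : ℝ) ≤ m := by exact_mod_cast Nat.find_min' hex hw
      exact h1.trans hm
  refine ⟨⟨C, hC, h'⟩, ?_⟩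
  filter_upwards [ev_small C, eventually_ge_atTop 1] with q hq hq1
  obtain ⟨M, hM, -, h3⟩ := h' q hq1
  refine ⟨M, hM, ?_⟩
  have h4 : (M : ℝ) ^ 2 ≤ (C * (q : ℝ) ^ 4 * 2 ^ ((2 / 3 : ℝ) * q)) ^ 2 :=
    pow_le_pow_left₀ (by positivity) h3 2
  refine lt_of_le_of_lt h4 ?_
  have e1 : ((2 : ℝ) ^ ((2 / 3 : ℝ) * q)) ^ 2 = 2 ^ ((4 / 3 : ℝ) * q) := by
    rw [← Real.rpow_natCast, ← Real.rpow_mul (by norm_num)]
    congr 1
    push_cast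
    ring
  have e2 : (2 : ℝ) ^ ((q : ℝ) / 2) * 2 ^ (q : ℝ) =
      2 ^ ((q : ℝ) / 6) * 2 ^ ((4 / 3 : ℝ) * q) := by
    rw [← Real.rpow_add (by norm_num), ← Real.rpow_add (by norm_num)]
    congr 1
    ring
  rw [e2]
  calc (C * (q : ℝ) ^ 4 * 2 ^ ((2 / 3 : ℝ) * q)) ^ 2
      = (C ^ 2 * (q : ℝ) ^ 8) * ((2 : ℝ) ^ ((2 / 3 : ℝ) * q)) ^ 2 := by ring
    _ = (C ^ 2 * (q : ℝ) ^ 8) * 2 ^ ((4 / 3 : ℝ) * q) := by rw [e1]
    _ < 2 ^ ((q : ℝ) / 6) * 2 ^ ((4 / 3 : ℝ) * q) := by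
      apply mul_lt_mul_of_pos_right hq
      positivity

end Pool.Agent.Results.MP_278060_co.FastMaker
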